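import Mathlib

/-!
# GS-6: the contragredient isomorphism
-/

set_option autoImplicit false

namespace Pool.Agent.Helper54.GS

/-- GS-6 -/
theorem exists_dualIso (𝔽 : Type) [Field 𝔽] (V : Type) [AddCommGroup V] [Module 𝔽 V]
    [FiniteDimensional 𝔽 V] :
    ∃ δ : SpecialLinearGroup 𝔽 V ≃* SpecialLinearGroup 𝔽 (Module.Dual 𝔽 V),
    ∀ (g : SpecialLinearGroup 𝔽 V) (φ : Module.Dual 𝔽 V) (x : V), δ g φ x = φ (g⁻¹ x) := by
  let d : SpecialLinearGroup 𝔽 V →* SpecialLinearGroup 𝔽 (Module.Dual 𝔽 V) :=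
    { toFun := fun g => (g⁻¹).dualMap
      map_one' := by
        apply SpecialLinearGroup.ext
        intro φ
        rw [inv_one]
        rfl
      map_mul' := by
        intro g h
        apply SpecialLinearGroup.ext
        intro φ
        rw [mul_inv_rev]
        rfl }
  have hd : ∀ (g : SpecialLinearGroup 𝔽 V) (φ : Module.Dual 𝔽 V) (x : V),
      d g φ x = φ (g⁻¹ x) := fun g φ x => rfl
  have hinj : Function.Injective d := by
    rw [injective_iff_map_eq_one]
    intro g hg
    rw [← inv_eq_one]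
    apply SpecialLinearGroup.ext
    intro x
    have h1 : ∀ φ : Module.Dual 𝔽 V, φ (g⁻¹ x) = φ x := by
      intro φ
      rw [← hd, hg]
      rfl
    have h2 := Module.forall_dual_apply_eq_zero_iff 𝔽 (g⁻¹ x - x)
    have h3 : g⁻¹ x - x = 0 := h2.mp fun φ => by rw [map_sub, h1, sub_self]
    exact sub_eq_zero.mp h3
  have hsurj : Function.Surjective d := by
    intro B
    let ev := Module.evalEquiv 𝔽 V
    refine ⟨(SpecialLinearGroup.congr_linearEquiv ev.symm B.dualMap)⁻¹, ?_⟩
    apply SpecialLinearGroup.ext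
    intro φ
    apply LinearMap.ext
    intro x
    rw [hd, inv_inv, SpecialLinearGroup.congr_linearEquiv_apply_apply]
    have h1 : ∀ (ψ : Module.Dual 𝔽 (Module.Dual 𝔽 V)), φ (ev.symm ψ) = ψ φ := by
      intro ψ
      have h2 := congrArg (fun f : Module.Dual 𝔽 (Module.Dual 𝔽 V) => f φ) (ev.apply_symm_apply ψ)
      exact h2
    rw [h1]
    rfl
  exact ⟨MulEquiv.ofBijective d ⟨hinj, hsurj⟩, hd⟩

end Pool.Agent.Helper54.GS
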