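import Pool.Agent.Helper54.GS.Defs
import Mathlib

/-!
# GS-3 and GS-4: stabilisers of vectors in SL(V)
-/

set_option autoImplicit false

namespace Pool.Agent.Helper54.GS

section
variable {𝔽 : Type} [Field 𝔽] {V : Type} [AddCommGroup V] [Module 𝔽 V]

/-- A transvection as an element of `SL(V)`. -/
def tv (f : Module.Dual 𝔽 V) (u : V) (h : f u = 0) : SpecialLinearGroup 𝔽 V :=
  ⟨LinearEquiv.transvection h, LinearEquiv.transvection.det_eq_one h⟩

theorem tv_apply (f : Module.Dual 𝔽 V) (u : V) (h : f u = 0) (x : V) :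
    tv f u h x = x + f x • u := rfl

theorem mem_Stv {v : V} {g : SpecialLinearGroup 𝔽 V} : g ∈ Stv (𝔽 := 𝔽) v ↔ g v = v := Iff.rfl

theorem mul_ap (a b : SpecialLinearGroup 𝔽 V) (x : V) : (a * b) x = a (b x) := rfl

theorem inv_ap (a : SpecialLinearGroup 𝔽 V) (x : V) : a⁻¹ (a x) = x := by
  rw [← mul_ap, inv_mul_cancel]
  rfl

theorem ap_inv (a : SpecialLinearGroup 𝔽 V) (x : V) : a (a⁻¹ x) = x := by
  rw [← mul_ap, mul_inv_cancel]
  rfl

theorem ap_ne_zero (a : SpecialLinearGroup 𝔽 V) {x : V} (hx : x ≠ 0) : a x ≠ 0 := by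
  intro h
  apply hx
  have h1 := inv_ap a x
  rw [h] at h1
  rw [← h1]
  exact map_zero (a⁻¹ : SpecialLinearGroup 𝔽 V).1

/-- one step of the transitivity -/
theorem step {v x y : V} (h : x ∉ Submodule.span 𝔽 {v, y - x}) :
    ∃ g ∈ Stv (𝔽 := 𝔽) v, g x = y := by
  obtain ⟨f, hf, hk⟩ := Submodule.exists_le_ker_of_notMem h
  have hfv : f v = 0 := hk (Submodule.subset_span (by simp))
  have hfu : f (y - x) = 0 := hk (Submodule.subset_span (by simp))
  have h1 : ((f x)⁻¹ • f) (y - x) = 0 := by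
    rw [LinearMap.smul_apply, hfu, smul_zero]
  refine ⟨tv ((f x)⁻¹ • f) (y - x) h1, ?_, ?_⟩
  · rw [mem_Stv, tv_apply, LinearMap.smul_apply, hfv, smul_zero, zero_smul, add_zero]
  · rw [tv_apply, LinearMap.smul_apply, smul_eq_mul, inv_mul_cancel₀ hf, one_smul]
    abel

theorem exists_notMem [FiniteDimensional 𝔽 V] (hV : 3 ≤ Module.finrank 𝔽 V) (a b : V) :
    ∃ z, z ∉ Submodule.span 𝔽 ({a, b} : Set V) := by
  by_contra hcon
  push Not at hcon
  have h1 : Submodule.span 𝔽 ({a, b} : Set V) = ⊤ := by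
    rw [eq_top_iff]
    intro z _
    exact hcon z
  have h2 : Module.finrank 𝔽 (Submodule.span 𝔽 ({a, b} : Set V)) ≤ 2 := by
    classical
    have h3 := finrank_span_finset_le_card (R := 𝔽) ({a, b} : Finset V)
    rw [Finset.coe_insert, Finset.coe_singleton] at h3
    exact h3.trans Finset.card_le_two
  rw [h1, finrank_top] at h2
  omega

/-- `Stv v` is transitive outside the line of `v`. -/
theorem stv_trans [FiniteDimensional 𝔽 V] (hV : 3 ≤ Module.finrank 𝔽 V) {v x y : V}
    (hx : x ∉ Submodule.span 𝔽 {v}) (hy : y ∉ Submodule.span 𝔽 {v}) :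
    ∃ g ∈ Stv (𝔽 := 𝔽) v, g x = y := by
  by_cases h : x ∉ Submodule.span 𝔽 {v, y - x}
  · exact step h
  · rw [not_not, Submodule.mem_span_pair] at h
    obtain ⟨a, b, hab⟩ := h
    obtain ⟨z, hz⟩ := exists_notMem hV v x
    rw [Submodule.mem_span_pair] at hz
    push Not at hz
    rw [Submodule.mem_span_singleton] at hx hy
    push Not at hx hy
    have hb : b ≠ 0 := by
      intro h0
      apply hx a
      rw [h0, zero_smul, add_zero] at hab
      exact hab
    have hyx : y = (b⁻¹ * (1 + b)) • x - (b⁻¹ * a) • v := by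
      have h1 : b • y = (1 + b) • x - a • v := by
        have e1 : b • (y - x) = x - a • v := eq_sub_of_add_eq' hab
        have e2 : b • y = b • (y - x) + b • x := by rw [← smul_add, sub_add_cancel]
        rw [e2, e1]
        module
      have h2 : y = b⁻¹ • (b • y) := by rw [smul_smul, inv_mul_cancel₀ hb, one_smul]
      rw [h2, h1, smul_sub, smul_smul, smul_smul]
    have s1 : x ∉ Submodule.span 𝔽 {v, z - x} := by
      rw [Submodule.mem_span_pair]
      rintro ⟨c, d, hcd⟩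
      by_cases hd : d = 0
      · apply hx c
        rw [hd, zero_smul, add_zero] at hcd
        exact hcd
      · apply hz (-(d⁻¹ * c)) (d⁻¹ * (1 + d))
        have h1 : d • z = (1 + d) • x - c • v := by
          have e1 : d • (z - x) = x - c • v := eq_sub_of_add_eq' hcd
          have e2 : d • z = d • (z - x) + d • x := by rw [← smul_add, sub_add_cancel]
          rw [e2, e1]
          module
        have h2 : z = d⁻¹ • (d • z) := by rw [smul_smul, inv_mul_cancel₀ hd, one_smul]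
        rw [h2, h1, smul_sub, smul_smul, smul_smul, neg_smul]
        abel
    have s2 : z ∉ Submodule.span 𝔽 {v, y - z} := by
      rw [Submodule.mem_span_pair]
      rintro ⟨c, d, hcd⟩
      have h1 : (1 + d) • z = c • v + d • y := by
        rw [smul_sub] at hcd
        rw [add_smul, one_smul]
        nth_rewrite 1 [← hcd]
        abel
      by_cases hd : 1 + d = 0
      · have hd' : d = -1 := by linear_combination hd
        apply hy c
        rw [hd, zero_smul, hd', neg_smul, one_smul] at h1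
        exact (sub_eq_zero.mp (by rw [sub_eq_add_neg]; exact h1.symm))
      · apply hz ((1 + d)⁻¹ * (c - d * (b⁻¹ * a))) ((1 + d)⁻¹ * (d * (b⁻¹ * (1 + b))))
        have h2 : z = (1 + d)⁻¹ • ((1 + d) • z) := by
          rw [smul_smul, inv_mul_cancel₀ hd, one_smul]
        rw [h2, h1, hyx]
        module
    obtain ⟨g₁, hg₁, h₁⟩ := step s1
    obtain ⟨g₂, hg₂, h₂⟩ := step s2
    exact ⟨g₂ * g₁, mul_mem hg₂ hg₁, by rw [mul_ap, h₁, h₂]⟩

/-- GS-4 -/
theorem stv_sup_stf [FiniteDimensional 𝔽 V] (hV : 3 ≤ Module.finrank 𝔽 V) (v : V) (hv : v ≠ 0)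
    (φ : Module.Dual 𝔽 V) (_hφ : φ ≠ 0) : Stv (𝔽 := 𝔽) v ⊔ Stf φ = ⊤ := by
  set M := Stv (𝔽 := 𝔽) v ⊔ Stf φ with hM
  have hM1 : Stv (𝔽 := 𝔽) v ≤ M := le_sup_left
  have hM2 : Stf φ ≤ M := le_sup_right
  obtain ⟨v₀, hv₀⟩ := exists_notMem hV v v
  rw [Set.pair_eq_singleton] at hv₀
  -- an element of `Stf φ` moving `v` out of its line
  have hout : ∃ s ∈ Stf φ, s v ∉ Submodule.span 𝔽 {v} := by
    have h1 : ∃ u ∈ LinearMap.ker φ, u ∉ Submodule.span 𝔽 {v} := by
      by_contra hcon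
      push Not at hcon
      have h2 : LinearMap.ker φ ≤ Submodule.span 𝔽 {v} := hcon
      have h3 := Submodule.finrank_mono h2
      have h4 := finrank_span_le_card (R := 𝔽) ({v} : Set V)
      rw [Set.toFinset_singleton, Finset.card_singleton] at h4
      have h5 := LinearMap.finrank_range_add_finrank_ker φ
      have h6 : Module.finrank 𝔽 (LinearMap.range φ) ≤ 1 := by
        refine (Submodule.finrank_le _).trans ?_
        rw [Module.finrank_self]
      omega
    obtain ⟨u, hu, huv⟩ := h1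
    have hvu : v ∉ Submodule.span 𝔽 {u} := by
      rw [Submodule.mem_span_singleton]
      rintro ⟨c, hc⟩
      apply huv
      rw [Submodule.mem_span_singleton]
      have hc0 : c ≠ 0 := by
        rintro rfl
        rw [zero_smul] at hc
        exact hv hc.symm
      exact ⟨c⁻¹, by rw [← hc, smul_smul, inv_mul_cancel₀ hc0, one_smul]⟩
    obtain ⟨f, hf, hk⟩ := Submodule.exists_le_ker_of_notMem hvu
    have hfu : f u = 0 := hk (Submodule.mem_span_singleton_self u)
    refine ⟨tv f u hfu, ?_, ?_⟩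
    · rw [mem_Stf]
      intro x
      rw [tv_apply, map_add, map_smul, LinearMap.mem_ker.mp hu, smul_zero, add_zero]
    · rw [tv_apply]
      intro hmem
      apply huv
      have h2 : f v • u ∈ Submodule.span 𝔽 {v} := by
        have := Submodule.sub_mem _ hmem (Submodule.mem_span_singleton_self v)
        rwa [add_sub_cancel_left] at this
      have h3 := Submodule.smul_mem _ (f v)⁻¹ h2
      rwa [smul_smul, inv_mul_cancel₀ hf, one_smul] at h3
  have htr : ∀ x : V, x ≠ 0 → ∃ m ∈ M, m x = v₀ := by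
    intro x hx
    by_cases hxv : x ∈ Submodule.span 𝔽 {v}
    · obtain ⟨s, hs, hsv⟩ := hout
      obtain ⟨c, rfl⟩ := Submodule.mem_span_singleton.mp hxv
      have hc : c ≠ 0 := by
        rintro rfl
        exact hx (zero_smul _ _)
      have h1 : s (c • v) ∉ Submodule.span 𝔽 {v} := by
        have h2 : s (c • v) = c • s v := map_smul s.1 c v
        rw [h2]
        intro h3
        apply hsv
        have h4 := Submodule.smul_mem _ c⁻¹ h3
        rwa [smul_smul, inv_mul_cancel₀ hc, one_smul] at h4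
      obtain ⟨g, hg, hgx⟩ := stv_trans hV h1 hv₀
      exact ⟨g * s, mul_mem (hM1 hg) (hM2 hs), by rw [mul_ap, hgx]⟩
    · obtain ⟨g, hg, hgx⟩ := stv_trans hV hxv hv₀
      exact ⟨g, hM1 hg, hgx⟩
  rw [eq_top_iff]
  intro g _
  obtain ⟨m₁, hm₁, h₁⟩ := htr (g v) (ap_ne_zero g hv)
  obtain ⟨m₂, hm₂, h₂⟩ := htr v hv
  have h3 : m₂⁻¹ * (m₁ * g) ∈ Stv (𝔽 := 𝔽) v := by
    rw [mem_Stv, mul_ap, mul_ap, h₁, ← h₂, inv_ap]
  have h4 : g = m₁⁻¹ * (m₂ * (m₂⁻¹ * (m₁ * g))) := by group
  rw [h4]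
  exact mul_mem (inv_mem hm₁) (mul_mem hm₂ (hM1 h3))


/-! ### GS-3 -/

variable (v : V)

theorem tv_mem (f : Module.Dual 𝔽 V) (h : f v = 0) : tv f v h ∈ Stv (𝔽 := 𝔽) v := by
  rw [mem_Stv, tv_apply, h, zero_smul, add_zero]

/-- lifting an automorphism of `V / v` -/
theorem stv_lift [FiniteDimensional 𝔽 V] (p : Submodule 𝔽 V)
    (hp : p = Submodule.span 𝔽 ({v} : Set V)) (B : SpecialLinearGroup 𝔽 (V ⧸ p)) :
    ∃ g : Stv (𝔽 := 𝔽) v, ∀ x : V,
      (Submodule.Quotient.mk ((g : SpecialLinearGroup 𝔽 V) x) : V ⧸ p) =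
        B (Submodule.Quotient.mk x) := by
  obtain ⟨s, hs⟩ := p.mkQ.exists_rightInverse_of_surjective p.range_mkQ
  have hs' : ∀ y : V ⧸ p, p.mkQ (s y) = y := fun y => LinearMap.congr_fun hs y
  let F : (V ⧸ p →ₗ[𝔽] V ⧸ p) → (V →ₗ[𝔽] V) := fun A =>
    LinearMap.id - s ∘ₗ p.mkQ + s ∘ₗ A ∘ₗ p.mkQ
  have hF : ∀ A x, F A x = x - s (p.mkQ x) + s (A (p.mkQ x)) := fun A x => rfl
  have hmk : ∀ A x, p.mkQ (F A x) = A (p.mkQ x) := by
    intro A x
    rw [hF, map_add, map_sub, hs', hs', sub_self, zero_add]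
  have hcomp : ∀ A A' : V ⧸ p →ₗ[𝔽] V ⧸ p, A ∘ₗ A' = LinearMap.id →
      F A ∘ₗ F A' = LinearMap.id := by
    intro A A' hA
    apply LinearMap.ext
    intro x
    rw [LinearMap.comp_apply, hF A, hmk, hF A', ← LinearMap.comp_apply A A', hA,
      LinearMap.id_apply, LinearMap.id_apply]
    abel
  let b : (V ⧸ p) ≃ₗ[𝔽] (V ⧸ p) := B.1
  let g : V ≃ₗ[𝔽] V := LinearEquiv.ofLinearMap (F b.toLinearMap) (F b.symm.toLinearMap)
    (hcomp _ _ b.comp_symm) (hcomp _ _ b.symm_comp)
  have hg : ∀ x, g x = F b.toLinearMap x := fun x => rfl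
  have hv0 : ∀ x ∈ p, p.mkQ x = 0 := fun x hx => by
    rw [Submodule.mkQ_apply, Submodule.Quotient.mk_eq_zero]
    exact hx
  have hgp : ∀ x ∈ p, g x = x := by
    intro x hx
    rw [hg, hF, hv0 x hx, map_zero, map_zero, map_zero, sub_zero, add_zero]
  have hdet : g.det = 1 := by
    rw [← Units.val_inj, LinearEquiv.coe_det, Units.val_one]
    have he : p ≤ p.comap g.toLinearMap := by
      intro x hx
      rw [Submodule.mem_comap]
      show g x ∈ p
      rw [hgp x hx]
      exact hx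
    rw [LinearMap.det_eq_det_mul_det p g.toLinearMap he]
    have h1 : g.toLinearMap.restrict he = LinearMap.id := by
      apply LinearMap.ext
      intro x
      apply Subtype.ext
      exact hgp x x.2
    have h2 : p.mapQ p g.toLinearMap he = b.toLinearMap := by
      apply LinearMap.ext
      intro y
      obtain ⟨x, rfl⟩ := p.mkQ_surjective y
      exact hmk b.toLinearMap x
    rw [h1, h2, LinearMap.det_id, one_mul, ← LinearEquiv.coe_det]
    have h3 : b.det = 1 := B.2
    rw [h3, Units.val_one]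
  refine ⟨⟨⟨g, hdet⟩, ?_⟩, fun x => ?_⟩
  · exact hgp v (by rw [hp]; exact Submodule.mem_span_singleton_self v)
  · exact hmk b.toLinearMap x

theorem normalClosure_stv_aux [FiniteDimensional 𝔽 V] (hV : 3 ≤ Module.finrank 𝔽 V) (v : V)
    (hv : v ≠ 0) (p : Submodule 𝔽 V) (hp : p = Submodule.span 𝔽 ({v} : Set V))
    (τ : Stv (𝔽 := 𝔽) v) (π : Stv (𝔽 := 𝔽) v →* SpecialLinearGroup 𝔽 (V ⧸ p))
    (hπ : ∀ (g : Stv (𝔽 := 𝔽) v) (x : V), π g (Submodule.Quotient.mk x) =
        (Submodule.Quotient.mk ((g : SpecialLinearGroup 𝔽 V) x) : V ⧸ p))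
    (hτ : Subgroup.normalClosure ({π τ} : Set (SpecialLinearGroup 𝔽 (V ⧸ p))) = ⊤) :
    Subgroup.normalClosure ({τ} : Set (Stv (𝔽 := 𝔽) v)) = ⊤ := by
  have hvp : v ∈ p := by
    rw [hp]
    exact Submodule.mem_span_singleton_self v
  have hsurj : Function.Surjective π := by
    intro B
    obtain ⟨g, hg⟩ := stv_lift v p hp B
    refine ⟨g, ?_⟩
    apply SpecialLinearGroup.ext
    intro y
    obtain ⟨x, rfl⟩ := Submodule.Quotient.mk_surjective _ y
    rw [hπ, hg]
  set N := Subgroup.normalClosure ({τ} : Set (Stv (𝔽 := 𝔽) v)) with hN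
  have hNn : N.Normal := Subgroup.normalClosure_normal
  have hmap : N.map π = ⊤ := by
    rw [hN, Subgroup.map_normalClosure _ _ hsurj, Set.image_singleton, hτ]
  have hNπ : ∀ B, ∃ g ∈ N, π g = B := by
    intro B
    have : B ∈ N.map π := by rw [hmap]; trivial
    exact this
  -- the kernel
  have hker : ∀ (f : Module.Dual 𝔽 V) (h : f v = 0), (⟨tv f v h, tv_mem v f h⟩ : Stv v) ∈ N := by
    intro f h
    -- the form on the quotient
    have hfp : p ≤ LinearMap.ker f := by
      rw [hp, Submodule.span_singleton_le_iff_mem]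
      exact h
    let h' : Module.Dual 𝔽 (V ⧸ p) := p.liftQ f hfp
    have hh' : ∀ x : V, h' (Submodule.Quotient.mk x) = f x := fun x => Submodule.liftQ_apply p f x
    have hdim : 2 ≤ Module.finrank 𝔽 (V ⧸ p) := by
      have h1 := Submodule.finrank_quotient_add_finrank p
      have h2 : Module.finrank 𝔽 p = 1 := by
        rw [hp]
        exact finrank_span_singleton hv
      omega
    obtain ⟨u, hu, hu0⟩ : ∃ u : V ⧸ p, h' u = 0 ∧ u ≠ 0 := by
      have h1 : LinearMap.ker h' ≠ ⊥ := by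
        intro h2
        have h3 := LinearMap.finrank_range_add_finrank_ker h'
        rw [h2, finrank_bot, add_zero] at h3
        have h4 : Module.finrank 𝔽 (LinearMap.range h') ≤ 1 := by
          refine (Submodule.finrank_le _).trans ?_
          rw [Module.finrank_self]
        omega
      obtain ⟨u, hu, hu0⟩ := Submodule.exists_mem_ne_zero_of_ne_bot h1
      exact ⟨u, hu, hu0⟩
    obtain ⟨e, he⟩ : ∃ e : Module.Dual 𝔽 (V ⧸ p), e u = 1 := by
      have h1 : u ∉ (⊥ : Submodule 𝔽 (V ⧸ p)) := by rwa [Submodule.mem_bot]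
      obtain ⟨e, he, _⟩ := Submodule.exists_le_ker_of_notMem h1
      exact ⟨(e u)⁻¹ • e, by rw [LinearMap.smul_apply, smul_eq_mul, inv_mul_cancel₀ he]⟩
    obtain ⟨g, hg, hgπ⟩ := hNπ (tv h' u hu)
    let e' : Module.Dual 𝔽 V := e ∘ₗ p.mkQ
    have he'v : e' v = 0 := by
      show e (p.mkQ v) = 0
      have : p.mkQ v = 0 := by
        rw [Submodule.mkQ_apply, Submodule.Quotient.mk_eq_zero]
        exact hvp
      rw [this, map_zero]
    let k : Stv (𝔽 := 𝔽) v := ⟨tv e' v he'v, tv_mem v e' he'v⟩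
    have hkm : g * (k⁻¹ * g⁻¹ * k) ∈ N := by
      refine mul_mem hg ?_
      have := hNn.conj_mem g⁻¹ (inv_mem hg) k⁻¹
      rwa [inv_inv] at this
    have hgv : (g : SpecialLinearGroup 𝔽 V) v = v := g.2
    have heq : (⟨tv f v h, tv_mem v f h⟩ : Stv (𝔽 := 𝔽) v) = g * (k⁻¹ * g⁻¹ * k) := by
      apply Subtype.ext
      apply SpecialLinearGroup.ext
      intro x
      have h1 : ((g * (k⁻¹ * g⁻¹ * k) : Stv (𝔽 := 𝔽) v) : SpecialLinearGroup 𝔽 V) x =
          (g : SpecialLinearGroup 𝔽 V) ((tv e' v he'v)⁻¹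
            ((g : SpecialLinearGroup 𝔽 V)⁻¹ (tv e' v he'v x))) := rfl
      rw [h1]
      -- the inverse of the transvection
      have hinv : ∀ y : V, (tv e' v he'v)⁻¹ y = y - e' y • v := by
        intro y
        have h2 : tv e' v he'v (y - e' y • v) = y := by
          rw [tv_apply, map_sub, map_smul, he'v, smul_zero, sub_zero]
          abel
        nth_rewrite 1 [← h2]
        rw [inv_ap]
      set G : SpecialLinearGroup 𝔽 V := (g : SpecialLinearGroup 𝔽 V) with hG
      have hGv : G⁻¹ v = v := by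
        have := inv_ap G v
        rwa [hgv] at this
      rw [hinv, tv_apply, tv_apply]
      have h3 : G⁻¹ (x + e' x • v) = G⁻¹ x + e' x • v := by
        have : G⁻¹ (x + e' x • v) = G⁻¹ x + e' x • G⁻¹ v := by
          have h4 := map_add (G⁻¹ : SpecialLinearGroup 𝔽 V).1 x (e' x • v)
          have h5 := map_smul (G⁻¹ : SpecialLinearGroup 𝔽 V).1 (e' x) v
          rw [h5] at h4
          exact h4
        rw [this, hGv]
      rw [h3]
      have h6 : e' (G⁻¹ x + e' x • v) = e' (G⁻¹ x) := by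
        rw [map_add, map_smul, he'v, smul_zero, add_zero]
      rw [h6]
      have h7 : G (G⁻¹ x + e' x • v - e' (G⁻¹ x) • v) = x + e' x • v - e' (G⁻¹ x) • v := by
        have h8 : G (G⁻¹ x + e' x • v - e' (G⁻¹ x) • v) =
            G (G⁻¹ x) + e' x • G v - e' (G⁻¹ x) • G v := by
          have a1 := map_sub G.1 (G⁻¹ x + e' x • v) (e' (G⁻¹ x) • v)
          have a2 := map_add G.1 (G⁻¹ x) (e' x • v)
          have a3 := map_smul G.1 (e' x) v
          have a4 := map_smul G.1 (e' (G⁻¹ x)) v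
          rw [a2, a3, a4] at a1
          exact a1
        rw [h8, ap_inv, hgv]
      rw [h7]
      have h9 : e' (G⁻¹ x) = e' x - f x := by
        have b1 : (Submodule.Quotient.mk (G⁻¹ x) : V ⧸ p) =
            Submodule.Quotient.mk x - f x • u := by
          have b2 : π g (Submodule.Quotient.mk (G⁻¹ x)) = Submodule.Quotient.mk x := by
            rw [hπ, ← hG, ap_inv]
          have b3 : π g (Submodule.Quotient.mk x - f x • u) = Submodule.Quotient.mk x := by
            rw [hgπ, tv_apply, map_sub, map_smul, hu, smul_zero, sub_zero, hh']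
            abel
          have b4 : (π g)⁻¹ (π g (Submodule.Quotient.mk (G⁻¹ x))) =
              (π g)⁻¹ (π g (Submodule.Quotient.mk x - f x • u)) := by rw [b2, b3]
          rwa [inv_ap, inv_ap] at b4
        show e (p.mkQ (G⁻¹ x)) = e (p.mkQ x) - f x
        rw [Submodule.mkQ_apply, Submodule.mkQ_apply, b1, map_sub, map_smul, he, smul_eq_mul,
          mul_one]
      rw [h9]
      module
    rw [heq]
    exact hkm
  rw [eq_top_iff]
  intro s _
  obtain ⟨n, hn, hns⟩ := hNπ (π s)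
  have h1 : π (n⁻¹ * s) = 1 := by rw [map_mul, map_inv, hns, inv_mul_cancel]
  set r := n⁻¹ * s with hr
  have h2 : ∀ x : V, (r : SpecialLinearGroup 𝔽 V) x - x ∈ p := by
    intro x
    rw [← Submodule.Quotient.mk_eq_zero, Submodule.Quotient.mk_sub, ← hπ, h1]
    exact sub_self _
  let L : V →ₗ[𝔽] p := LinearMap.codRestrict p
    ((r : SpecialLinearGroup 𝔽 V).1.toLinearMap - LinearMap.id) h2
  obtain ⟨f, hf⟩ : ∃ f : Module.Dual 𝔽 V, ∀ x : V,
      (r : SpecialLinearGroup 𝔽 V) x = x + f x • v := by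
    subst hp
    let c : (Submodule.span 𝔽 ({v} : Set V)) ≃ₗ[𝔽] 𝔽 :=
      (LinearEquiv.toSpanNonzeroSingleton 𝔽 V v hv).symm
    refine ⟨c.toLinearMap ∘ₗ L, fun x => ?_⟩
    have h3 : c.symm ((c.toLinearMap ∘ₗ L) x) = L x := c.symm_apply_apply (L x)
    have h4 : ((c.symm ((c.toLinearMap ∘ₗ L) x) : Submodule.span 𝔽 ({v} : Set V)) : V) =
        (c.toLinearMap ∘ₗ L) x • v := rfl
    have h5 : ((L x : Submodule.span 𝔽 ({v} : Set V)) : V) =
        (r : SpecialLinearGroup 𝔽 V) x - x := rfl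
    rw [← h4, h3, h5]
    abel
  have hfv : f v = 0 := by
    have h3 := hf v
    have h4 : (r : SpecialLinearGroup 𝔽 V) v = v := r.2
    rw [h4] at h3
    have h5 : f v • v = 0 := by
      have := h3.symm
      rwa [add_eq_left] at this
    rcases smul_eq_zero.mp h5 with h6 | h6
    · exact h6
    · exact absurd h6 hv
  have h6 : r = ⟨tv f v hfv, tv_mem v f hfv⟩ := by
    apply Subtype.ext
    apply SpecialLinearGroup.ext
    intro x
    exact hf x
  have h7 : s = n * r := by rw [hr]; group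
  rw [h7, h6]
  exact mul_mem hn (hker f hfv)

/-- GS-3 -/
theorem normalClosure_stv [FiniteDimensional 𝔽 V] (hV : 3 ≤ Module.finrank 𝔽 V) (v : V)
    (hv : v ≠ 0) (τ : Stv (𝔽 := 𝔽) v)
    (π : Stv (𝔽 := 𝔽) v →* SpecialLinearGroup 𝔽 (V ⧸ Submodule.span 𝔽 {v}))
    (hπ : ∀ (g : Stv (𝔽 := 𝔽) v) (x : V), π g (Submodule.Quotient.mk x) =
        (Submodule.Quotient.mk ((g : SpecialLinearGroup 𝔽 V) x) : V ⧸ Submodule.span 𝔽 {v}))
    (hτ : Subgroup.normalClosure
      ({π τ} : Set (SpecialLinearGroup 𝔽 (V ⧸ Submodule.span 𝔽 {v}))) = ⊤) :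
    Subgroup.normalClosure ({τ} : Set (Stv (𝔽 := 𝔽) v)) = ⊤ :=
  normalClosure_stv_aux hV v hv _ rfl τ π hπ hτ

end

end Pool.Agent.Helper54.GS
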